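import Pool.Agent.Y142.SS.Stm
import Pool.Agent.Y331.ZD.Krq

set_option autoImplicit false

/-! Project OP: Krasner for small `k` (all the roots of `R₀` are integral), adaptation of
Y331.ZD.Krq (helper331) and Y518.SS.Krs (helper518); roots of `(X - b) ^ m - c` over unramified
fields. -/

open Polynomial Filter Topology
open Pool.Agent.Y142.ZI Pool.Agent.Y142.ZD
open Pool.Agent.Y331.ZD (um_add um_sub near_split norm_map exists_mu exists_bd root_aut)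

namespace Pool.Agent.R810.OP

variable {ℓ : ℕ} [hℓ : Fact ℓ.Prime]

/-- Krasner with integral roots: the roots of `Q` are `1 + ℓ ^ k r s`, `s` a root of `R₀`, with
`‖r s - s‖ < μ`, equivariantly. -/
theorem core {R₀ : ℚ_[ℓ][X]} (hR₀ : R₀.Monic) (hsep : R₀.Separable)
    (hint : ∀ s : AlgebraicClosure ℚ_[ℓ], aeval s R₀ = 0 → ‖s‖ ≤ 1) {μ : ℝ} (hμ0 : 0 < μ)
    (hμ : ∀ s t : AlgebraicClosure ℚ_[ℓ], aeval s R₀ = 0 → aeval t R₀ = 0 → s ≠ t →
      μ ≤ ‖s - t‖) :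
    ∃ ε : ℝ, 0 < ε ∧ ∀ (k : ℕ) (Q : ℚ_[ℓ][X]), Q.Monic → Q.natDegree = R₀.natDegree →
      (∀ j, ‖(resc ℓ k Q - R₀).coeff j‖ < ε) →
      Q.Separable ∧ ∃ r : AlgebraicClosure ℚ_[ℓ] → AlgebraicClosure ℚ_[ℓ],
        (∀ s, aeval s R₀ = 0 → ‖r s - s‖ < μ) ∧
        (∀ s, aeval s R₀ = 0 → aeval (1 + algebraMap ℚ_[ℓ] (AlgebraicClosure ℚ_[ℓ])
          ((ℓ : ℚ_[ℓ]) ^ k) * r s) Q = 0) ∧
        (∀ s t, aeval s R₀ = 0 → aeval t R₀ = 0 → r s = r t → s = t) ∧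
        (∀ x, aeval x Q = 0 → ∃ s, aeval s R₀ = 0 ∧
          x = 1 + algebraMap ℚ_[ℓ] (AlgebraicClosure ℚ_[ℓ]) ((ℓ : ℚ_[ℓ]) ^ k) * r s) ∧
        ∀ (τ : AlgebraicClosure ℚ_[ℓ] ≃ₐ[ℚ_[ℓ]] AlgebraicClosure ℚ_[ℓ]) (s), aeval s R₀ = 0 →
          r (τ s) = τ (r s) := by
  classical
  set L := AlgebraicClosure ℚ_[ℓ] with hL
  set i : ℚ_[ℓ] →+* L := algebraMap ℚ_[ℓ] L with hi
  have hnorm : ∀ x : ℚ_[ℓ], ‖i x‖ = ‖x‖ := norm_map
  set J : Type := {r : L // r ∈ (R₀.map i).roots.toFinset} with hJ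
  set b : J → L := Subtype.val with hb
  have hbinj : Function.Injective b := Subtype.val_injective
  have hsepP : (R₀.map i).Separable := hsep.map
  have hndR : (R₀.map i).roots.Nodup := nodup_roots hsepP
  have hcardJ : Fintype.card J = R₀.natDegree := by
    rw [Fintype.card_coe, Multiset.toFinset_card_of_nodup hndR,
      ← (IsAlgClosed.splits (R₀.map i)).natDegree_eq_card_roots, natDegree_map]
  have hroot0 : ∀ s : L, aeval s R₀ = 0 ↔ ∃ j : J, b j = s := by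
    intro s
    constructor
    · intro h
      refine ⟨⟨s, ?_⟩, rfl⟩
      rw [Multiset.mem_toFinset, mem_roots (hR₀.map i).ne_zero, IsRoot, eval_map, ← aeval_def]
      exact h
    · rintro ⟨⟨s', hs'⟩, rfl⟩
      rw [Multiset.mem_toFinset, mem_roots (hR₀.map i).ne_zero, IsRoot, eval_map, ← aeval_def] at hs'
      exact hs'
  have hprod0 : R₀.map i = ∏ j : J, (X - C (b j)) := by
    conv_lhs => rw [(IsAlgClosed.splits (R₀.map i)).eq_prod_roots_of_monic (hR₀.map i)]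
    rw [Finset.prod_coe_sort (R₀.map i).roots.toFinset (fun r => (X - C r : L[X])),
      Finset.prod, Multiset.toFinset_val, Multiset.dedup_eq_self.mpr hndR]
  have hM : ∀ j, ‖b j‖ ≤ 1 := fun j => hint _ ((hroot0 _).2 ⟨j, rfl⟩)
  have hsep2 : ∀ j1 j2 : J, ‖b j1 - b j2‖ < μ → j1 = j2 := by
    intro j1 j2 h
    by_contra hne
    have h1 := hμ (b j1) (b j2) ((hroot0 _).2 ⟨j1, rfl⟩) ((hroot0 _).2 ⟨j2, rfl⟩)
      (fun h0 => hne (hbinj h0))
    exact absurd h1 (not_le.mpr h)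
  have hεpos : 0 < μ ^ Fintype.card J / 2 := by positivity
  have hε1 : μ ^ Fintype.card J / 2 * 1 ^ Fintype.card J < μ ^ Fintype.card J := by
    rw [one_pow, mul_one]
    have : 0 < μ ^ Fintype.card J := by positivity
    linarith
  refine ⟨μ ^ Fintype.card J / 2, hεpos, ?_⟩
  intro k Q hQ hQdeg hcl
  obtain ⟨r, hrinj, hrb, hprod⟩ := near_split (b := b) (P := (resc ℓ k Q).map i) hμ0 le_rfl hM
    (fun u v huv => by
      by_contra hlt
      push Not at hlt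
      exact huv (hsep2 u v hlt))
    hεpos.le hε1 ((resc_monic k hQ).map i)
    (by rw [natDegree_map, resc_natDegree, hQdeg, hcardJ])
    (fun j => by
      rw [← hprod0, ← Polynomial.map_sub, coeff_map, hnorm]
      exact (hcl j).le)
  have hLk : ((ℓ : ℚ_[ℓ]) ^ k) ≠ 0 := ell_pow_ne k
  set la : L := i ((ℓ : ℚ_[ℓ]) ^ k) with hla
  have hla0 : la ≠ 0 := (_root_.map_ne_zero _).2 hLk
  have hrootR : ∀ s : L, aeval s (resc ℓ k Q) = 0 ↔ ∃ j, s = r j := by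
    intro s
    rw [aeval_def, ← eval_map, ← hi, hprod, eval_prod, Finset.prod_eq_zero_iff]
    simp [sub_eq_zero]
  have hQroot : ∀ x : L, aeval x Q = 0 → ∃ j, 1 + la * r j = x := by
    intro x hx
    have h1 := (aeval_resc k Q x).mpr hx
    obtain ⟨j, hj⟩ := (hrootR _).mp h1
    refine ⟨j, ?_⟩
    rw [← hj, hla, mul_div_cancel₀ _ hla0]
    ring
  have hQroot' : ∀ j, aeval (1 + la * r j) Q = 0 := by
    intro j
    have h1 : aeval (r j) (resc ℓ k Q) = 0 := (hrootR _).mpr ⟨j, rfl⟩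
    rw [aeval_resc'] at h1
    exact h1
  have hsepR : (resc ℓ k Q).Separable := by
    refine (separable_map i).mp ?_
    rw [hprod]
    exact (separable_prod_X_sub_C_iff (f := r)).mpr hrinj
  have hequiv : ∀ (τ : L ≃ₐ[ℚ_[ℓ]] L) (j j' : J), b j' = τ (b j) → r j' = τ (r j) := by
    intro τ j j' hjj
    have h1 : aeval (τ (r j)) (resc ℓ k Q) = 0 := root_aut τ ((hrootR _).mpr ⟨j, rfl⟩)
    obtain ⟨j'', hj''⟩ := (hrootR _).mp h1
    have h2 : ‖r j'' - b j'‖ < μ := by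
      rw [← hj'', hjj, ← map_sub, Pool.Agent.Y331.ZD.norm_inv']
      exact hrb j
    have h3 : j'' = j' := by
      apply hsep2
      have : b j'' - b j' = (r j'' - b j') - (r j'' - b j'') := by ring
      rw [this]
      exact um_sub h2 (hrb j'')
    rw [hj'', h3]
  refine ⟨separable_of_resc k hsepR, fun s => if h : aeval s R₀ = 0 then
    r (Classical.choose ((hroot0 s).mp h)) else 0, ?_⟩
  have hφb : ∀ j, (if h : aeval (b j) R₀ = 0 then
      r (Classical.choose ((hroot0 (b j)).mp h)) else 0) = r j := by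
    intro j
    have h : aeval (b j) R₀ = 0 := (hroot0 _).mpr ⟨j, rfl⟩
    have h1 := Classical.choose_spec ((hroot0 (b j)).mp h)
    rw [dif_pos h, hbinj h1]
  refine ⟨?_, ?_, ?_, ?_, ?_⟩
  · intro s hs
    obtain ⟨j, rfl⟩ := (hroot0 s).mp hs
    dsimp only
    rw [hφb]
    exact hrb j
  · intro s hs
    obtain ⟨j, rfl⟩ := (hroot0 s).mp hs
    dsimp only
    rw [hφb]
    exact hQroot' j
  · intro s t hs ht h
    obtain ⟨j, rfl⟩ := (hroot0 s).mp hs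
    obtain ⟨j', rfl⟩ := (hroot0 t).mp ht
    dsimp only at h
    rw [hφb, hφb] at h
    rw [hrinj h]
  · intro x hx
    obtain ⟨j, rfl⟩ := hQroot x hx
    refine ⟨b j, (hroot0 _).mpr ⟨j, rfl⟩, ?_⟩
    dsimp only
    rw [hφb]
  · intro τ s hs
    obtain ⟨j, rfl⟩ := (hroot0 s).mp hs
    obtain ⟨j', hj'⟩ := (hroot0 _).mp (root_aut τ hs)
    dsimp only
    rw [← hj', hφb, hφb]
    exact hequiv τ j j' hj'

/-- norms of the roots of `(X - b) ^ m - c` -/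
theorem pure_norm {b c : ℚ_[ℓ]} {m : ℕ} (hc : ‖c‖ = (ℓ : ℝ)⁻¹)
    {s : AlgebraicClosure ℚ_[ℓ]}
    (hs : (s - algebraMap ℚ_[ℓ] (AlgebraicClosure ℚ_[ℓ]) b) ^ m =
      algebraMap ℚ_[ℓ] (AlgebraicClosure ℚ_[ℓ]) c) :
    ‖s - algebraMap ℚ_[ℓ] (AlgebraicClosure ℚ_[ℓ]) b‖ ^ m = (ℓ : ℝ)⁻¹ := by
  rw [← norm_pow, hs, Pool.Agent.Y331.ZD.norm_map, hc]

theorem pure_norm_lt {b c : ℚ_[ℓ]} {m : ℕ} (hc : ‖c‖ = (ℓ : ℝ)⁻¹)
    {s : AlgebraicClosure ℚ_[ℓ]}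
    (hs : (s - algebraMap ℚ_[ℓ] (AlgebraicClosure ℚ_[ℓ]) b) ^ m =
      algebraMap ℚ_[ℓ] (AlgebraicClosure ℚ_[ℓ]) c) :
    ‖s - algebraMap ℚ_[ℓ] (AlgebraicClosure ℚ_[ℓ]) b‖ < 1 := by
  by_contra hcon
  push Not at hcon
  have h1 := pure_norm hc hs
  have h2 : (1 : ℝ) ≤ ‖s - algebraMap ℚ_[ℓ] (AlgebraicClosure ℚ_[ℓ]) b‖ ^ m :=
    one_le_pow₀ hcon
  have h3 : (ℓ : ℝ)⁻¹ < 1 := inv_lt_one_of_one_lt₀ (by exact_mod_cast hℓ.out.one_lt)
  linarith

/-- the minimal polynomials of the roots of `X ^ m - c` over unramified fields -/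
theorem pure_min {c : ℚ_[ℓ]} {m : ℕ} (hm : 0 < m) (hc : ‖c‖ = (ℓ : ℝ)⁻¹)
    (F : IntermediateField ℚ_[ℓ] (AlgebraicClosure ℚ_[ℓ])) (hF : Unr ℓ F) :
    ∀ u : AlgebraicClosure ℚ_[ℓ], u ^ m = algebraMap ℚ_[ℓ] (AlgebraicClosure ℚ_[ℓ]) c →
      minpoly F u = X ^ m - C (algebraMap ℚ_[ℓ] F c) := by
  set L := AlgebraicClosure ℚ_[ℓ] with hL
  set i : ℚ_[ℓ] →+* L := algebraMap ℚ_[ℓ] L with hi
  have hℓ1 : (1 : ℝ) < ℓ := by exact_mod_cast hℓ.out.one_lt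
  intro u hu
  have hmon : (X ^ m - C (algebraMap ℚ_[ℓ] F c) : F[X]).Monic := monic_X_pow_sub_C _ hm.ne'
  have hroot : aeval u (X ^ m - C (algebraMap ℚ_[ℓ] F c) : F[X]) = 0 := by
    rw [map_sub, map_pow, aeval_X, aeval_C, hu, sub_eq_zero, hi]
    rfl
  have hint : IsIntegral F u := ⟨_, hmon, by rw [← aeval_def]; exact hroot⟩
  have hdvd := minpoly.dvd F u hroot
  set d : ℕ := (minpoly F u).natDegree with hd
  have hd0 : 0 < d := minpoly.natDegree_pos hint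
  have hdm : d ≤ m := by
    have := natDegree_le_of_dvd hdvd hmon.ne_zero
    rwa [natDegree_X_pow_sub_C] at this
  -- the norm of the constant coefficient
  have hspl : ((minpoly F u).map (algebraMap F L)).Splits := IsAlgClosed.splits _
  have hmonm : ((minpoly F u).map (algebraMap F L)).Monic := (minpoly.monic hint).map _
  have hcoef : ((minpoly F u).map (algebraMap F L)).coeff 0 =
      (-1) ^ d * ((minpoly F u).map (algebraMap F L)).roots.prod := by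
    have h1 := hspl.coeff_zero_eq_prod_roots_of_monic hmonm
    rw [h1, natDegree_map]
  have hrn : ∀ v ∈ ((minpoly F u).map (algebraMap F L)).roots, ‖v‖ = ‖u‖ := by
    intro v hv
    rw [mem_roots hmonm.ne_zero, IsRoot, eval_map, ← aeval_def] at hv
    have hv2 : v ^ m = i c := by
      obtain ⟨w, hw⟩ := hdvd
      have h2 : aeval v (X ^ m - C (algebraMap ℚ_[ℓ] F c) : F[X]) = 0 := by
        rw [hw, map_mul, hv, zero_mul]
      rw [map_sub, map_pow, aeval_X, aeval_C, sub_eq_zero] at h2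
      exact h2
    have h3 : ‖v‖ ^ m = ‖u‖ ^ m := by rw [← norm_pow, ← norm_pow, hv2, hu]
    exact (pow_left_inj₀ (norm_nonneg _) (norm_nonneg _) hm.ne').1 h3
  have hcard : Multiset.card ((minpoly F u).map (algebraMap F L)).roots = d := by
    rw [← hspl.natDegree_eq_card_roots, natDegree_map]
  have hnp : ∀ M : Multiset L, (∀ v ∈ M, ‖v‖ = ‖u‖) → ‖M.prod‖ = ‖u‖ ^ Multiset.card M := by
    intro M
    induction M using Multiset.induction_on with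
    | empty => intro _; simp
    | cons a M ih =>
      intro h
      rw [Multiset.prod_cons, norm_mul, h a (Multiset.mem_cons_self a M),
        ih fun v hv => h v (Multiset.mem_cons_of_mem hv), Multiset.card_cons, pow_succ, mul_comm]
  have hn : ‖((minpoly F u).map (algebraMap F L)).coeff 0‖ = ‖u‖ ^ d := by
    rw [hcoef, norm_mul, norm_pow, norm_neg, norm_one, one_pow, one_mul, hnp _ hrn, hcard]
  have hum : ‖u‖ ^ m = (ℓ : ℝ)⁻¹ := by
    rw [← norm_pow, hu, hi, Pool.Agent.Y331.ZD.norm_map, hc]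
  have hu0 : 0 < ‖u‖ := by
    rcases (norm_nonneg u).eq_or_lt with h | h
    · exfalso
      rw [← h, zero_pow hm.ne'] at hum
      have : (0 : ℝ) < (ℓ : ℝ)⁻¹ := by positivity
      linarith
    · exact h
  have hmem : ((minpoly F u).map (algebraMap F L)).coeff 0 ∈ F := by
    rw [coeff_map]
    exact ((minpoly F u).coeff 0).2
  obtain ⟨e, he⟩ := hF _ hmem (by
    intro h0
    rw [h0, norm_zero] at hn
    have : 0 < ‖u‖ ^ d := by positivity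
    linarith)
  rw [hn] at he
  -- compare
  have h5 : (ℓ : ℝ) ^ (e * m) = (ℓ : ℝ) ^ (-(d : ℤ)) := by
    rw [zpow_mul, ← he, zpow_natCast, ← pow_mul, mul_comm d m, pow_mul, hum, inv_pow, zpow_neg,
      zpow_natCast]
  have h6 : e * m = -(d : ℤ) := zpow_right_injective₀ (by linarith) hℓ1.ne' h5
  have h7 : (m : ℤ) ∣ d := ⟨-e, by linear_combination h6⟩
  have h8 : m ∣ d := by exact_mod_cast h7
  have h9 : m = d := le_antisymm (Nat.le_of_dvd hd0 h8) hdm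
  refine (eq_of_monic_of_dvd_of_natDegree_le (minpoly.monic hint) hmon hdvd ?_).symm
  rw [natDegree_X_pow_sub_C, ← hd, ← h9]

/-- the roots of `(X - b) ^ m - c` are conjugate over unramified fields -/
theorem pure_conj {b c : ℚ_[ℓ]} {m : ℕ} (hm : 0 < m) (hc : ‖c‖ = (ℓ : ℝ)⁻¹)
    (F : IntermediateField ℚ_[ℓ] (AlgebraicClosure ℚ_[ℓ])) (hF : Unr ℓ F)
    {s t : AlgebraicClosure ℚ_[ℓ]}
    (hs : (s - algebraMap ℚ_[ℓ] (AlgebraicClosure ℚ_[ℓ]) b) ^ m =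
      algebraMap ℚ_[ℓ] (AlgebraicClosure ℚ_[ℓ]) c)
    (ht : (t - algebraMap ℚ_[ℓ] (AlgebraicClosure ℚ_[ℓ]) b) ^ m =
      algebraMap ℚ_[ℓ] (AlgebraicClosure ℚ_[ℓ]) c) :
    ∃ τ : AlgebraicClosure ℚ_[ℓ] ≃ₐ[F] AlgebraicClosure ℚ_[ℓ], τ s = t := by
  have h1 : IsConjRoot F (t - algebraMap ℚ_[ℓ] (AlgebraicClosure ℚ_[ℓ]) b)
      (s - algebraMap ℚ_[ℓ] (AlgebraicClosure ℚ_[ℓ]) b) := by
    rw [IsConjRoot, pure_min hm hc F hF _ ht, pure_min hm hc F hF _ hs]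
  obtain ⟨τ, hτ⟩ := isConjRoot_iff_exists_algEquiv.1 h1
  refine ⟨τ, ?_⟩
  have h2 : τ (algebraMap ℚ_[ℓ] (AlgebraicClosure ℚ_[ℓ]) b) =
      algebraMap ℚ_[ℓ] (AlgebraicClosure ℚ_[ℓ]) b := by
    have : algebraMap ℚ_[ℓ] (AlgebraicClosure ℚ_[ℓ]) b =
      algebraMap F (AlgebraicClosure ℚ_[ℓ]) (algebraMap ℚ_[ℓ] F b) := rfl
    rw [this, τ.commutes]
  rw [map_sub, h2] at hτ
  exact sub_left_injective hτ

/-- an automorphism over `F` as an automorphism over `ℚ_ℓ` -/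
theorem core_F {F : IntermediateField ℚ_[ℓ] (AlgebraicClosure ℚ_[ℓ])}
    (τ : AlgebraicClosure ℚ_[ℓ] ≃ₐ[F] AlgebraicClosure ℚ_[ℓ]) :
    ∃ σ : AlgebraicClosure ℚ_[ℓ] ≃ₐ[ℚ_[ℓ]] AlgebraicClosure ℚ_[ℓ], ∀ x, σ x = τ x :=
  ⟨τ.restrictScalars ℚ_[ℓ], fun _ => rfl⟩

theorem la_fix (τ : AlgebraicClosure ℚ_[ℓ] ≃ₐ[ℚ_[ℓ]] AlgebraicClosure ℚ_[ℓ])
    (a : ℚ_[ℓ]) (x : AlgebraicClosure ℚ_[ℓ]) :
    τ (1 + algebraMap ℚ_[ℓ] (AlgebraicClosure ℚ_[ℓ]) a * x) =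
      1 + algebraMap ℚ_[ℓ] (AlgebraicClosure ℚ_[ℓ]) a * τ x := by
  rw [map_add, map_one, map_mul, τ.commutes]

end Pool.Agent.R810.OP
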